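import Mathlib

/-!
# Sublattices of a finite distributive lattice: the injection

`p` is an atom of the finite distributive lattice `L` and `x` is its pseudo-complement. The
sublattices (the empty one included) that contain `x` are mapped injectively to those that do not.
-/

set_option autoImplicit false

namespace Pool.Agent.U613.SL

open Finset

variable {L : Type*} [DistribLattice L] [Fintype L] [DecidableEq L]

/-- closed under `⊔` and `⊓` -/
def IsSub (S : Finset L) : Prop := ∀ a ∈ S, ∀ b ∈ S, a ⊔ b ∈ S ∧ a ⊓ b ∈ S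

/-- the data: `p` is an atom (in a lattice with least element `z`), `x` its pseudo-complement -/
structure PX (z p x : L) : Prop where
  bot : ∀ a : L, z ≤ a
  pne : p ≠ z
  atom : ∀ a : L, ¬ p ≤ a → a ⊓ p = z
  px : ∀ a : L, a ≤ x ↔ ¬ p ≤ a

variable {z p x : L}

/-- image under `s ↦ s ⊔ p` -/
def img (p : L) (S : Finset L) : Finset L := S.image (· ⊔ p)

lemma mem_img {p : L} {S : Finset L} {a : L} : a ∈ img p S ↔ ∃ s ∈ S, s ⊔ p = a := by
  simp [img]

lemma img_sub {S : Finset L} (h : IsSub S) : IsSub (img p S) := by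
  intro a ha b hb
  rw [mem_img] at ha hb
  obtain ⟨s, hs, rfl⟩ := ha
  obtain ⟨t, ht, rfl⟩ := hb
  constructor
  · rw [mem_img]
    exact ⟨s ⊔ t, (h s hs t ht).1, by rw [sup_sup_distrib_right]⟩
  · rw [mem_img]
    exact ⟨s ⊓ t, (h s hs t ht).2, by rw [sup_inf_right]⟩

lemma le_of_mem_img {S : Finset L} {a : L} (h : a ∈ img p S) : p ≤ a := by
  rw [mem_img] at h
  obtain ⟨s, -, rfl⟩ := h
  exact le_sup_right

lemma mem_img_of_mem {S : Finset L} {a : L} (h : a ∈ S) (hp : p ≤ a) : a ∈ img p S := by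
  rw [mem_img]
  exact ⟨a, h, sup_eq_left.2 hp⟩

namespace PX

variable (h : PX z p x)
include h

lemma npx : ¬ p ≤ x := (h.px x).1 le_rfl

lemma sigma {s : L} (hs : ¬ p ≤ s) : (s ⊔ p) ⊓ x = s := by
  have h1 : s ≤ x := (h.px s).2 hs
  have h2 : x ⊓ p = z := h.atom x h.npx
  rw [inf_sup_right, inf_eq_left.2 h1, inf_comm p x, h2]
  exact sup_eq_left.2 (h.bot s)

lemma tau {w : L} (h1 : p ≤ w) (h2 : w ≤ x ⊔ p) : (w ⊓ x) ⊔ p = w := by
  rw [sup_inf_right, sup_eq_left.2 h1, inf_eq_left.2 h2]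

lemma inf_lower {s t : L} (hs : ¬ p ≤ s) : (t ⊔ p) ⊓ s = t ⊓ s := by
  rw [inf_sup_right]
  have h2 : p ⊓ s = z := by rw [inf_comm]; exact h.atom s hs
  rw [h2]
  exact sup_eq_left.2 (h.bot _)

lemma notMem_img {S : Finset L} : x ∉ img p S := fun hx => h.npx (le_of_mem_img hx)

/-- the lower part of a sublattice that contains `x` is determined by its image -/
lemma low_iff {S : Finset L} (hS : IsSub S) (hx : x ∈ S) {s : L} (hs : ¬ p ≤ s) :
    s ∈ S ↔ s ⊔ p ∈ img p S := by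
  constructor
  · intro h1
    exact mem_img.2 ⟨s, h1, rfl⟩
  · intro h1
    rw [mem_img] at h1
    obtain ⟨t, ht, he⟩ := h1
    have h2 : s = (t ⊔ p) ⊓ x := by rw [he, h.sigma hs]
    by_cases hpt : p ≤ t
    · rw [sup_eq_left.2 hpt] at h2
      rw [h2]
      exact (hS t ht x hx).2
    · rw [h.sigma hpt] at h2
      rw [h2]
      exact ht

/-- the upper part, in the presence of a least upper element -/
lemma up_iff {S : Finset L} (hS : IsSub S) {d : L} (hd : d ∈ S) (hpd : p ≤ d)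
    (hmin : ∀ t ∈ S, p ≤ t → d ≤ t) {w : L} (hw : p ≤ w) :
    w ∈ S ↔ w ∈ img p S ∧ d ≤ w := by
  constructor
  · intro h1
    exact ⟨mem_img_of_mem h1 hw, hmin w h1 hw⟩
  · rintro ⟨h1, h2⟩
    rw [mem_img] at h1
    obtain ⟨s, hs, rfl⟩ := h1
    have h3 : s ⊔ p = s ⊔ d := by
      apply le_antisymm
      · exact sup_le_sup_left hpd s
      · exact sup_le le_sup_left h2
    rw [h3]
    exact (hS s hs d hd).1

lemma up_iff' {S : Finset L} (hS : IsSub S)
    (hno : ∀ t ∈ S, p ≤ t → ¬ t ≤ x ⊔ p) {w : L} (hw : p ≤ w) :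
    w ∈ S ↔ w ∈ img p S ∧ ¬ w ≤ x ⊔ p := by
  constructor
  · intro h1
    exact ⟨mem_img_of_mem h1 hw, hno w h1 hw⟩
  · rintro ⟨h1, h2⟩
    rw [mem_img] at h1
    obtain ⟨s, hs, rfl⟩ := h1
    by_cases hps : p ≤ s
    · rw [sup_eq_left.2 hps]; exact hs
    · exact absurd (sup_le_sup_right ((h.px s).2 hps) p) h2

end PX

/-- `q` is an atom of `K` below `X` -/
def Q (X : L) (K : Finset L) (q : L) : Prop :=
  q ∈ K ∧ q ≤ X ∧ (∃ a ∈ K, ¬ q ≤ a) ∧ ∀ a ∈ K, ∀ b ∈ K, ¬ q ≤ a → ¬ q ≤ b → ¬ q ≤ a ⊔ b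

lemma exists_Q {X : L} {K : Finset L} (hK : IsSub K) (hX : X ∈ K) {w : L} (hw : w ∈ K)
    (hwX : ¬ X ≤ w) : ∃ q, Q X K q := by
  classical
  -- the least element of `K`
  have hne : K.Nonempty := ⟨X, hX⟩
  set m : L := K.inf' hne id with hm
  have hmK : m ∈ K := by
    apply Finset.inf'_mem (↑K : Set L)
    · intro a ha b hb
      exact (hK a ha b hb).2
    · intro i hi; exact hi
  have hmle : ∀ a ∈ K, m ≤ a := fun a ha => Finset.inf'_le id ha
  -- minimal element among those above `m` and below `X`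
  have hne2 : (K.filter fun a => a ≤ X ∧ ¬ a ≤ m).Nonempty :=
    ⟨X, by rw [mem_filter]; exact ⟨hX, le_rfl, fun hc => hwX (hc.trans (hmle w hw))⟩⟩
  obtain ⟨q, hq, hqmin⟩ := (K.filter fun a => a ≤ X ∧ ¬ a ≤ m).exists_minimal hne2
  rw [mem_filter] at hq
  have key : ∀ a ∈ K, ¬ q ≤ a → q ⊓ a ≤ m := by
    intro a ha hqa
    by_contra hcon
    have h1 : q ⊓ a ∈ K.filter fun a => a ≤ X ∧ ¬ a ≤ m := by
      rw [mem_filter]
      exact ⟨(hK q hq.1 a ha).2, inf_le_left.trans hq.2.1, hcon⟩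
    have h2 := hqmin h1 inf_le_left
    exact hqa (h2.trans inf_le_right)
  refine ⟨q, hq.1, hq.2.1, ⟨m, hmK, hq.2.2⟩, ?_⟩
  intro a ha b hb hqa hqb hqab
  apply hq.2.2
  calc q = q ⊓ (a ⊔ b) := (inf_eq_left.2 hqab).symm
    _ = (q ⊓ a) ⊔ (q ⊓ b) := inf_sup_left _ _ _
    _ ≤ m := sup_le (key a ha hqa) (key b hb hqb)

open Classical in
/-- a fixed atom of `K` -/
noncomputable def qof (X : L) (K : Finset L) : L :=
  if h : ∃ q, Q X K q then h.choose else X

lemma qof_spec {X : L} {K : Finset L} (h : ∃ q, Q X K q) : Q X K (qof X K) := by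
  unfold qof
  rw [dif_pos h]
  exact h.choose_spec

end Pool.Agent.U613.SL
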