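import Pool.Agent.U613.SL.Strict
import Pool.Agent.R636.FFam

/-!
# The lattice of sublattices of a finite distributive lattice
-/

set_option autoImplicit false
set_option linter.unusedSectionVars false
set_option linter.unusedVariables false

namespace Pool.Agent.U613.SL

open Finset Pool.Agent.R636.FL

variable {L : Type*} [DistribLattice L]

/-- the one-element sublattice -/
def sing (x : L) : Sublattice L where
  carrier := {x}
  supClosed' := by
    intro a ha b hb
    rw [Set.mem_singleton_iff] at ha hb ⊢
    rw [ha, hb, sup_idem]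
  infClosed' := by
    intro a ha b hb
    rw [Set.mem_singleton_iff] at ha hb ⊢
    rw [ha, hb, inf_idem]

lemma mem_sing {x y : L} : y ∈ sing x ↔ y = x := Iff.rfl

lemma sing_le {x : L} {U : Sublattice L} : sing x ≤ U ↔ x ∈ U := by
  constructor
  · intro h
    exact h (mem_sing.2 rfl)
  · intro h y hy
    rw [mem_sing] at hy
    rw [hy]; exact h

lemma eq_of_le_sing {x : L} {U : Sublattice L} (h : U ≤ sing x) : U = ⊥ ∨ U = sing x := by
  by_cases hx : x ∈ U
  · exact Or.inr (le_antisymm h (sing_le.2 hx))
  · left
    rw [eq_bot_iff]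
    intro y hy
    have h1 : y = x := mem_sing.1 (h hy)
    rw [h1] at hy
    exact absurd hy hx

lemma sing_ne_bot (x : L) : sing x ≠ ⊥ := by
  intro h
  have h1 : x ∈ (⊥ : Sublattice L) := by rw [← h]; exact mem_sing.2 rfl
  exact h1

lemma supIrred_sing (x : L) : SupIrred (sing x) := by
  constructor
  · intro hmin
    exact sing_ne_bot x (le_bot_iff.1 (hmin bot_le))
  · intro a b hab
    have ha : a ≤ sing x := hab ▸ le_sup_left
    have hb : b ≤ sing x := hab ▸ le_sup_right
    rcases eq_of_le_sing ha with h1 | h1
    · right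
      rw [h1, bot_sup_eq] at hab
      exact hab
    · left; exact h1

section fin

variable [Fintype L] [DecidableEq L]

open Classical in
/-- sublattices as finite sets -/
noncomputable def equivFin : Sublattice L ≃ {S : Finset L // IsSub S} where
  toFun U := ⟨univ.filter fun a => a ∈ U, by
    intro a ha b hb
    simp only [mem_filter, mem_univ, true_and] at ha hb ⊢
    exact ⟨U.supClosed ha hb, U.infClosed ha hb⟩⟩
  invFun S := ⟨↑S.1, fun a ha b hb => (S.2 a ha b hb).1, fun a ha b hb => (S.2 a ha b hb).2⟩
  left_inv U := by
    apply SetLike.ext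
    intro a
    change a ∈ (↑(univ.filter fun a => a ∈ U) : Set L) ↔ _
    simp
  right_inv S := by
    apply Subtype.ext
    ext a
    simp only [mem_filter, mem_univ, true_and]
    rfl

lemma mem_equivFin {U : Sublattice L} {a : L} : a ∈ (equivFin U).1 ↔ a ∈ U := by
  classical
  simp [equivFin]

lemma card_mem (x : L) : Nat.card {U : Sublattice L // sing x ≤ U} =
    Nat.card {S : Finset L // IsSub S ∧ x ∈ S} := by
  refine Nat.card_congr ⟨fun U => ⟨(equivFin U.1).1, (equivFin U.1).2,
    mem_equivFin.2 (sing_le.1 U.2)⟩, fun S => ⟨equivFin.symm ⟨S.1, S.2.1⟩, ?_⟩, ?_, ?_⟩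
  · rw [sing_le, ← mem_equivFin, Equiv.apply_symm_apply]
    exact S.2.2
  · intro U
    apply Subtype.ext
    simp
  · intro S
    apply Subtype.ext
    simp

lemma card_all (x : L) : Nat.card (Sublattice L) =
    Nat.card {S : Finset L // IsSub S ∧ x ∈ S} + Nat.card {S : Finset L // IsSub S ∧ x ∉ S} := by
  classical
  rw [Nat.card_congr equivFin, ← ncard_filter, ← ncard_filter, ← ncard_filter,
    ← Finset.card_filter_add_card_filter_not (s := univ.filter fun S : Finset L => IsSub S)
      (fun S => x ∈ S), filter_filter, filter_filter]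

theorem strong_of_not_chain (h : ¬ ∀ a b : L, a ≤ b ∨ b ≤ a) : Strong (Sublattice L) := by
  obtain ⟨x, hx⟩ := exists_strict (Fintype.card L) L le_rfl h
  refine ⟨sing x, supIrred_sing x, ?_⟩
  rw [card_mem, card_all x]
  omega

lemma isSub_of_chain (h : ∀ a b : L, a ≤ b ∨ b ≤ a) (S : Finset L) : IsSub S := by
  intro a ha b hb
  rcases h a b with h1 | h1
  · rw [sup_eq_right.2 h1, inf_eq_left.2 h1]; exact ⟨hb, ha⟩
  · rw [sup_eq_left.2 h1, inf_eq_right.2 h1]; exact ⟨ha, hb⟩

theorem boolLike_of_chain (h : ∀ a b : L, a ≤ b ∨ b ≤ a) : BoolLike (Sublattice L) := by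
  classical
  have hN : Nat.card (Sublattice L) = 2 ^ Fintype.card L := by
    rw [Nat.card_congr equivFin, ← ncard_filter]
    rw [filter_true_of_mem (fun S _ => isSub_of_chain h S), card_univ, Fintype.card_finset]
  refine ⟨Fintype.card L, hN, ?_⟩
  -- the nonzero elements in question are singletons
  have key : ∀ U : Sublattice L, U ≠ ⊥ ∧ Nat.card (Sublattice L) ≤
      2 * Nat.card {V : Sublattice L // U ≤ V} → ∃ x, U = sing x := by
    rintro U ⟨hU, hc⟩
    have hne : (U : Set L).Nonempty := by
      rw [Set.nonempty_iff_ne_empty]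
      intro h0
      apply hU
      rw [eq_bot_iff]
      intro y hy
      have : y ∈ (U : Set L) := hy
      rw [h0] at this
      exact this
    obtain ⟨x, hx⟩ := hne
    refine ⟨x, ?_⟩
    by_contra hUx
    have h2 : ∃ y ∈ U, y ≠ x := by
      by_contra hno
      push Not at hno
      apply hUx
      exact le_antisymm (fun y hy => mem_sing.2 (hno y hy)) (sing_le.2 hx)
    obtain ⟨y, hy, hyx⟩ := h2
    -- the sublattices containing both `x` and `y`
    have h3 : Nat.card {V : Sublattice L // U ≤ V} ≤
        (univ.filter fun S : Finset L => x ∈ S ∧ y ∈ S).card := by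
      rw [ncard_filter]
      refine Nat.card_le_card_of_injective (fun V => ⟨(equivFin V.1).1,
        mem_equivFin.2 (V.2 hx), mem_equivFin.2 (V.2 hy)⟩) ?_
      intro V W hVW
      simp only [Subtype.mk.injEq] at hVW
      exact Subtype.ext (equivFin.injective (Subtype.ext hVW))
    have h4 : (univ.filter fun S : Finset L => x ∈ S ∧ y ∈ S).card * 4 ≤ 2 ^ Fintype.card L := by
      have h5 : (univ.filter fun S : Finset L => x ∈ S ∧ y ∈ S).card =
          (((univ : Finset L).erase x).erase y).powerset.card := by
        refine card_bij' (fun S _ => (S.erase x).erase y)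
          (fun T _ => insert x (insert y T)) ?_ ?_ ?_ ?_
        · intro S hS
          rw [mem_powerset]
          exact erase_subset_erase _ (erase_subset_erase _ (subset_univ _))
        · intro T hT
          rw [mem_filter]
          exact ⟨mem_univ _, mem_insert_self _ _, mem_insert_of_mem (mem_insert_self _ _)⟩
        · intro S hS
          rw [mem_filter] at hS
          have h6 : y ∈ S.erase x := mem_erase.2 ⟨hyx, hS.2.2⟩
          simp only [insert_erase h6, insert_erase hS.2.1]
        · intro T hT
          rw [mem_powerset] at hT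
          have hxT : x ∉ T := fun hc => by
            have := hT hc
            simp at this
          have hyT : y ∉ T := fun hc => by
            have := hT hc
            simp at this
          have h7 : x ∉ insert y T := by
            rw [mem_insert, not_or]; exact ⟨fun e => hyx e.symm, hxT⟩
          simp only [erase_insert h7, erase_insert hyT]
      rw [h5, card_powerset, card_erase_of_mem (mem_erase.2 ⟨hyx, mem_univ y⟩),
        card_erase_of_mem (mem_univ x), card_univ]
      have h6 : 2 ≤ Fintype.card L := by
        have : ({x, y} : Finset L).card ≤ Fintype.card L := card_le_univ _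
        rwa [card_pair (fun e => hyx e.symm)] at this
      obtain ⟨k, hk⟩ := Nat.exists_eq_add_of_le h6
      rw [hk]
      have e : 2 + k - 1 - 1 = k := by omega
      rw [e, pow_add]
      omega
    rw [hN] at hc
    have h5 : 0 < 2 ^ Fintype.card L := by positivity
    omega
  have hinj : Function.Injective fun U : {U : Sublattice L // U ≠ ⊥ ∧
      Nat.card (Sublattice L) ≤ 2 * Nat.card {V : Sublattice L // U ≤ V}} =>
      (key U.1 U.2).choose := by
    intro U V hUV
    apply Subtype.ext
    rw [(key U.1 U.2).choose_spec, (key V.1 V.2).choose_spec]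
    exact congrArg sing hUV
  have := Nat.card_le_card_of_injective _ hinj
  rwa [Nat.card_eq_fintype_card (α := L)] at this

theorem weak_of_chain (h : ∀ a b : L, a ≤ b ∨ b ≤ a) [Nonempty L] : Weak (Sublattice L) := by
  classical
  obtain ⟨x⟩ := (inferInstance : Nonempty L)
  refine ⟨sing x, supIrred_sing x, ?_⟩
  rw [card_mem, card_all x]
  have h1 : Nat.card {S : Finset L // IsSub S ∧ x ∈ S} ≤
      Nat.card {S : Finset L // IsSub S ∧ x ∉ S} := by
    refine Nat.card_le_card_of_injective (fun S => ⟨S.1.erase x, isSub_of_chain h _,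
      notMem_erase _ _⟩) ?_
    intro S T hST
    simp only [Subtype.mk.injEq] at hST
    apply Subtype.ext
    rw [← insert_erase S.2.2, ← insert_erase T.2.2, hST]
  omega

end fin

theorem good (L : Type*) [DistribLattice L] [Finite L] : Good (Sublattice L) := by
  classical
  have := Fintype.ofFinite L
  by_cases h : ∀ a b : L, a ≤ b ∨ b ≤ a
  · right
    refine ⟨boolLike_of_chain h, fun hn => ?_⟩
    have : Nonempty L := by
      by_contra hc
      rw [not_nonempty_iff] at hc
      obtain ⟨U, V, hUV⟩ := hn
      apply hUV
      apply SetLike.ext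
      intro a
      exact hc.elim a
    exact weak_of_chain h
  · exact Or.inl (strong_of_not_chain h)

/-- the statement for pseudo-complements of atoms -/
theorem pseudo {L : Type*} [DistribLattice L] [OrderBot L] [Finite L] (p x : L) (hp : IsAtom p)
    (hx : ∀ a : L, a ≤ x ↔ ¬ p ≤ a) :
    2 * Nat.card {U : Sublattice L // x ∈ U} ≤ Nat.card (Sublattice L) ∧
      (x ≠ ⊥ → 2 * Nat.card {U : Sublattice L // x ∈ U} < Nat.card (Sublattice L)) := by
  classical
  have := Fintype.ofFinite L
  have hPX : PX (⊥ : L) p x := by
    refine ⟨fun a => bot_le, hp.1, fun a ha => ?_, hx⟩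
    rcases hp.le_iff.1 (inf_le_right : a ⊓ p ≤ p) with h1 | h1
    · exact h1
    · exact absurd (inf_eq_right.1 h1) ha
  have e : Nat.card {U : Sublattice L // x ∈ U} = Nat.card {S : Finset L // IsSub S ∧ x ∈ S} := by
    rw [← card_mem]
    exact Nat.card_congr (Equiv.subtypeEquivRight fun U => sing_le.symm)
  have h1 := hPX.card_le
  rw [ncard_filter, ncard_filter] at h1
  rw [e, card_all x]
  refine ⟨by omega, fun hxz => ?_⟩
  have h2 := hPX.card_lt hxz
  rw [ncard_filter, ncard_filter] at h2
  omega

end Pool.Agent.U613.SL
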