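import Pool.Agent.U613.SL.Inj

/-!
# The injection, continued
-/

set_option autoImplicit false
set_option linter.unusedSectionVars false
set_option linter.unusedVariables false

namespace Pool.Agent.U613.SL

open Finset

variable {L : Type*} [DistribLattice L] [Fintype L] [DecidableEq L]
variable {z p x : L}

open Classical in
/-- output of type B -/
noncomputable def VB (p : L) (S : Finset L) (d : L) : Finset L :=
  img p S ∪ S.filter fun s => ¬ p ≤ s ∧ s ⊔ p ≤ d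

open Classical in
/-- output of type E -/
noncomputable def VE (p q : L) (S : Finset L) : Finset L :=
  ((img p S).filter fun w => q ≤ w) ∪ S.filter fun s => ¬ q ≤ s ⊔ p

lemma mem_VB {S : Finset L} {d a : L} :
    a ∈ VB p S d ↔ a ∈ img p S ∨ (a ∈ S ∧ ¬ p ≤ a ∧ a ⊔ p ≤ d) := by
  simp [VB]

lemma mem_VE {S : Finset L} {q a : L} :
    a ∈ VE p q S ↔ (a ∈ img p S ∧ q ≤ a) ∨ (a ∈ S ∧ ¬ q ≤ a ⊔ p) := by
  simp [VE]

/-- type B -/
def TB (p x : L) (S V : Finset L) : Prop :=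
  ∃ d ∈ S, p ≤ d ∧ d ≤ x ⊔ p ∧ d ≠ x ⊔ p ∧ (∀ t ∈ S, p ≤ t → d ≤ t) ∧ V = VB p S d

/-- type C -/
def TC (p x : L) (S V : Finset L) : Prop :=
  x ⊔ p ∈ S ∧ (∀ t ∈ S, p ≤ t → x ⊔ p ≤ t) ∧ V = img p S

/-- type D -/
def TD (p x : L) (S V : Finset L) : Prop :=
  (∃ t ∈ S, p ≤ t ∧ ¬ x ⊔ p ≤ t) ∧ (∀ t ∈ S, p ≤ t → ¬ t ≤ x ⊔ p) ∧ V = img p S

/-- type E -/
def TE (p x : L) (S V : Finset L) : Prop :=
  (∀ t ∈ S, p ≤ t → ¬ t ≤ x ⊔ p) ∧ (∀ t ∈ S, p ≤ t → x ⊔ p ≤ t) ∧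
    V = VE p (qof (x ⊔ p) (img p S)) S

/-- the relation -/
def R (p x : L) (S V : Finset L) : Prop :=
  ((∀ s ∈ S, x ≤ s) ∧ V = S.erase x) ∨
  ((∃ w ∈ S, ¬ x ≤ w) ∧ (TB p x S V ∨ TC p x S V ∨ TD p x S V ∨ TE p x S V))

lemma img_img {S : Finset L} : img p (img p S) = img p S := by
  ext a
  constructor
  · intro h
    rw [mem_img] at h
    obtain ⟨b, hb, rfl⟩ := h
    rw [sup_eq_left.2 (le_of_mem_img hb)]
    exact hb
  · intro h
    exact mem_img_of_mem h (le_of_mem_img h)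

lemma sup_mem_img {S : Finset L} (hS : IsSub S) {w s : L} (hw : w ∈ img p S) (hs : s ∈ S) :
    w ⊔ s ∈ img p S := by
  rw [mem_img] at hw ⊢
  obtain ⟨t, ht, rfl⟩ := hw
  exact ⟨t ⊔ s, (hS t ht s hs).1, by rw [sup_right_comm]⟩

namespace PX

variable (h : PX z p x)
include h

/-- the infimum of an element of the image and a lower element -/
lemma inf_mem {S : Finset L} (hS : IsSub S) {w s : L} (hw : w ∈ img p S) (hs : s ∈ S)
    (hps : ¬ p ≤ s) : w ⊓ s ∈ S := by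
  rw [mem_img] at hw
  obtain ⟨t, ht, rfl⟩ := hw
  by_cases hpt : p ≤ t
  · rw [sup_eq_left.2 hpt]; exact (hS t ht s hs).2
  · rw [h.inf_lower hps]; exact (hS t ht s hs).2

lemma sub_VB {S : Finset L} (hS : IsSub S) {d : L} : IsSub (VB p S d) := by
  intro a ha b hb
  rw [mem_VB] at ha hb
  rw [mem_VB, mem_VB]
  rcases ha with ha | ⟨ha, ha1, ha2⟩ <;> rcases hb with hb | ⟨hb, hb1, hb2⟩
  · exact ⟨Or.inl (img_sub hS a ha b hb).1, Or.inl (img_sub hS a ha b hb).2⟩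
  · refine ⟨Or.inl (sup_mem_img hS ha hb), Or.inr ⟨h.inf_mem hS ha hb hb1, ?_, ?_⟩⟩
    · exact fun hc => hb1 (hc.trans inf_le_right)
    · exact (sup_le_sup_right inf_le_right p).trans hb2
  · refine ⟨Or.inl ?_, Or.inr ⟨?_, ?_, ?_⟩⟩
    · rw [sup_comm]; exact sup_mem_img hS hb ha
    · rw [inf_comm]; exact h.inf_mem hS hb ha ha1
    · exact fun hc => ha1 (hc.trans inf_le_left)
    · exact (sup_le_sup_right inf_le_left p).trans ha2
  · refine ⟨Or.inr ⟨(hS a ha b hb).1, ?_, ?_⟩, Or.inr ⟨(hS a ha b hb).2, ?_, ?_⟩⟩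
    · rw [← h.px] at ha1 hb1 ⊢
      exact sup_le ha1 hb1
    · rw [sup_sup_distrib_right]
      exact sup_le ha2 hb2
    · exact fun hc => ha1 (hc.trans inf_le_left)
    · exact (sup_le_sup_right inf_le_left p).trans ha2

lemma sub_VE {S : Finset L} (hS : IsSub S) {q : L} (hq : Q (x ⊔ p) (img p S) q)
    (hno : ∀ t ∈ S, p ≤ t → x ⊔ p ≤ t) : IsSub (VE p q S) := by
  obtain ⟨hq1, hq2, -, hq4⟩ := hq
  have hlow : ∀ s ∈ S, ¬ q ≤ s ⊔ p → ¬ p ≤ s := by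
    intro s hs hqs hps
    exact hqs (hq2.trans ((hno s hs hps).trans le_sup_left))
  intro a ha b hb
  rw [mem_VE] at ha hb
  rw [mem_VE, mem_VE]
  rcases ha with ⟨ha, ha1⟩ | ⟨ha, ha1⟩ <;> rcases hb with ⟨hb, hb1⟩ | ⟨hb, hb1⟩
  · exact ⟨Or.inl ⟨(img_sub hS a ha b hb).1, ha1.trans le_sup_left⟩,
      Or.inl ⟨(img_sub hS a ha b hb).2, le_inf ha1 hb1⟩⟩
  · refine ⟨Or.inl ⟨sup_mem_img hS ha hb, ha1.trans le_sup_left⟩,
      Or.inr ⟨h.inf_mem hS ha hb (hlow b hb hb1), fun hc => hb1 (hc.trans ?_)⟩⟩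
    exact sup_le_sup_right inf_le_right p
  · refine ⟨Or.inl ⟨?_, hb1.trans le_sup_right⟩, Or.inr ⟨?_, fun hc => ha1 (hc.trans ?_)⟩⟩
    · rw [sup_comm]; exact sup_mem_img hS hb ha
    · rw [inf_comm]; exact h.inf_mem hS hb ha (hlow a ha ha1)
    · exact sup_le_sup_right inf_le_left p
  · refine ⟨Or.inr ⟨(hS a ha b hb).1, ?_⟩, Or.inr ⟨(hS a ha b hb).2, fun hc => ha1 (hc.trans ?_)⟩⟩
    · rw [sup_sup_distrib_right]
      exact hq4 _ (mem_img.2 ⟨a, ha, rfl⟩) _ (mem_img.2 ⟨b, hb, rfl⟩) ha1 hb1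
    · exact sup_le_sup_right inf_le_left p

/-- an element of the image that is not above `x ⊔ p` -/
lemma low_witness {S : Finset L} (hS : IsSub S) (hx : x ∈ S) {w : L} (hw : w ∈ S)
    (hwx : ¬ x ≤ w) : (w ⊓ x ∈ S ∧ ¬ p ≤ w ⊓ x ∧ ¬ x ≤ w ⊓ x) ∧
      ((w ⊓ x) ⊔ p ∈ img p S ∧ ¬ x ⊔ p ≤ (w ⊓ x) ⊔ p) := by
  have h1 : w ⊓ x ∈ S := (hS w hw x hx).2
  have h2 : ¬ p ≤ w ⊓ x := fun hc => h.npx (hc.trans inf_le_right)
  have h3 : ¬ x ≤ w ⊓ x := fun hc => hwx (hc.trans inf_le_left)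
  refine ⟨⟨h1, h2, h3⟩, mem_img.2 ⟨_, h1, rfl⟩, fun hc => h3 ?_⟩
  calc x = (x ⊔ p) ⊓ x := by rw [inf_comm]; exact (inf_eq_left.2 le_sup_left).symm
    _ ≤ ((w ⊓ x) ⊔ p) ⊓ x := inf_le_inf_right x hc
    _ = w ⊓ x := h.sigma h2

lemma exists_Q' {S : Finset L} (hS : IsSub S) (hx : x ∈ S) (hw : ∃ w ∈ S, ¬ x ≤ w) :
    Q (x ⊔ p) (img p S) (qof (x ⊔ p) (img p S)) := by
  obtain ⟨w, hw, hwx⟩ := hw
  obtain ⟨-, h1, h2⟩ := h.low_witness hS hx hw hwx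
  exact qof_spec (exists_Q (img_sub hS) (mem_img.2 ⟨x, hx, rfl⟩) h1 h2)

theorem exists_R {S : Finset L} (hS : IsSub S) (hx : x ∈ S) :
    ∃ V, IsSub V ∧ x ∉ V ∧ R p x S V := by
  classical
  by_cases hup : ∀ s ∈ S, x ≤ s
  · refine ⟨S.erase x, ?_, notMem_erase _ _, Or.inl ⟨hup, rfl⟩⟩
    intro a ha b hb
    rw [mem_erase] at ha hb
    have key : ∀ a ∈ S, a ≠ x → p ≤ a := by
      intro a ha hax
      by_contra hpa
      exact hax (le_antisymm ((h.px a).2 hpa) (hup a ha))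
    rw [mem_erase, mem_erase]
    refine ⟨⟨fun hc => h.npx ?_, (hS a ha.2 b hb.2).1⟩,
      ⟨fun hc => h.npx ?_, (hS a ha.2 b hb.2).2⟩⟩
    · rw [← hc]
      exact (key a ha.2 ha.1).trans le_sup_left
    · rw [← hc]
      exact le_inf (key a ha.2 ha.1) (key b hb.2 hb.1)
  · push Not at hup
    obtain ⟨w, hw, hwx⟩ := hup
    have hQ := h.exists_Q' hS hx ⟨w, hw, hwx⟩
    by_cases hU : ∃ t ∈ S, p ≤ t
    · -- the least upper element
      have hne : (S.filter fun t => p ≤ t).Nonempty := by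
        obtain ⟨t, ht, hpt⟩ := hU
        exact ⟨t, by rw [mem_filter]; exact ⟨ht, hpt⟩⟩
      set d : L := (S.filter fun t => p ≤ t).inf' hne id with hd
      have hdmem : d ∈ S.filter fun t => p ≤ t := by
        apply Finset.inf'_mem (↑(S.filter fun t => p ≤ t) : Set L)
        · intro a ha b hb
          rw [mem_coe, mem_filter] at ha hb ⊢
          exact ⟨(hS a ha.1 b hb.1).2, le_inf ha.2 hb.2⟩
        · intro i hi; exact hi
      rw [mem_filter] at hdmem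
      have hdmin : ∀ t ∈ S, p ≤ t → d ≤ t := fun t ht hpt =>
        Finset.inf'_le (f := id) (by rw [mem_filter]; exact ⟨ht, hpt⟩)
      by_cases hdX : d ≤ x ⊔ p
      · by_cases hdX' : d = x ⊔ p
        · refine ⟨img p S, img_sub hS, h.notMem_img, Or.inr ⟨⟨w, hw, hwx⟩, Or.inr (Or.inl
            ⟨?_, ?_, rfl⟩)⟩⟩
          · rw [← hdX']; exact hdmem.1
          · rw [← hdX']; exact hdmin
        · refine ⟨VB p S d, h.sub_VB hS, ?_, Or.inr ⟨⟨w, hw, hwx⟩, Or.inl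
            ⟨d, hdmem.1, hdmem.2, hdX, hdX', hdmin, rfl⟩⟩⟩
          rw [mem_VB]
          rintro (h1 | ⟨-, -, h1⟩)
          · exact h.notMem_img h1
          · exact hdX' (le_antisymm hdX h1)
      · have hno : ∀ t ∈ S, p ≤ t → ¬ t ≤ x ⊔ p := fun t ht hpt hc =>
          hdX ((hdmin t ht hpt).trans hc)
        by_cases hXd : x ⊔ p ≤ d
        · refine ⟨VE p (qof (x ⊔ p) (img p S)) S,
            h.sub_VE hS hQ (fun t ht hpt => hXd.trans (hdmin t ht hpt)), ?_,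
            Or.inr ⟨⟨w, hw, hwx⟩, Or.inr (Or.inr (Or.inr
              ⟨hno, fun t ht hpt => hXd.trans (hdmin t ht hpt), rfl⟩))⟩⟩
          rw [mem_VE]
          rintro (⟨h1, -⟩ | ⟨-, h1⟩)
          · exact h.notMem_img h1
          · exact h1 hQ.2.1
        · exact ⟨img p S, img_sub hS, h.notMem_img, Or.inr ⟨⟨w, hw, hwx⟩, Or.inr (Or.inr (Or.inl
            ⟨⟨d, hdmem.1, hdmem.2, hXd⟩, hno, rfl⟩))⟩⟩
    · push Not at hU
      refine ⟨VE p (qof (x ⊔ p) (img p S)) S,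
        h.sub_VE hS hQ (fun t ht hpt => absurd hpt (hU t ht)), ?_,
        Or.inr ⟨⟨w, hw, hwx⟩, Or.inr (Or.inr (Or.inr
          ⟨fun t ht hpt => absurd hpt (hU t ht), fun t ht hpt => absurd hpt (hU t ht), rfl⟩))⟩⟩
      rw [mem_VE]
      rintro (⟨h1, -⟩ | ⟨-, h1⟩)
      · exact h.notMem_img h1
      · exact h1 hQ.2.1

end PX

end Pool.Agent.U613.SL
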