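import Pool.Agent.U613.SL.Uniq

/-!
# Finite distributive lattices that are not chains
-/

set_option autoImplicit false
set_option linter.unusedSectionVars false
set_option linter.unusedVariables false

namespace Pool.Agent.U613.SL

open Finset

section one

variable {L : Type*} [DistribLattice L] [Fintype L] [DecidableEq L] {z p : L}

/-- a sublattice of `↑p` as a set of elements of `L` -/
def up (p : L) (S : Finset (Set.Ici p)) : Finset L := S.map ⟨Subtype.val, Subtype.val_injective⟩

lemma mem_up {S : Finset (Set.Ici p)} {a : L} : a ∈ up p S ↔ ∃ h : p ≤ a, (⟨a, h⟩ : Set.Ici p) ∈ S := by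
  unfold up
  rw [Finset.mem_map]
  constructor
  · rintro ⟨⟨b, hb⟩, hbS, rfl⟩
    exact ⟨hb, hbS⟩
  · rintro ⟨h, hS⟩
    exact ⟨_, hS, rfl⟩

lemma up_inj {S T : Finset (Set.Ici p)} (h : up p S = up p T) : S = T := by
  unfold up at h
  exact Finset.map_injective _ h

lemma up_sub {S : Finset (Set.Ici p)} : IsSub (up p S) ↔ IsSub S := by
  constructor
  · intro h a ha b hb
    have h1 := h a.1 (mem_up.2 ⟨a.2, ha⟩) b.1 (mem_up.2 ⟨b.2, hb⟩)
    obtain ⟨⟨h2, h3⟩, ⟨h4, h5⟩⟩ := And.imp mem_up.1 mem_up.1 h1
    exact ⟨h3, h5⟩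
  · intro h a ha b hb
    obtain ⟨ha1, ha2⟩ := mem_up.1 ha
    obtain ⟨hb1, hb2⟩ := mem_up.1 hb
    have h1 := h _ ha2 _ hb2
    exact ⟨mem_up.2 ⟨le_sup_of_le_left ha1, h1.1⟩, mem_up.2 ⟨le_inf ha1 hb1, h1.2⟩⟩

lemma ncard_filter {P : Finset L → Prop} [DecidablePred P] :
    (univ.filter P).card = Nat.card {S : Finset L // P S} := by
  rw [Nat.card_eq_fintype_card, Fintype.card_subtype]

open Classical in
/-- the least element `z` has only one upper cover `p`: the sublattices with and without `z` -/
lemma card_up (hz : ∀ a : L, z ≤ a) (hzp : z ≠ p) (hp : ∀ a : L, a ≠ z → p ≤ a)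
    (P : Finset L → Prop) (hP : ∀ S, P (insert z S) ↔ P S) :
    Nat.card {S : Finset L // IsSub S ∧ P S} =
      2 * Nat.card {S : Finset (Set.Ici p) // IsSub S ∧ P (up p S)} := by
  rw [← ncard_filter, ← ncard_filter]
  set A := univ.filter fun S : Finset (Set.Ici p) => IsSub S ∧ P (up p S) with hA
  have hzup : ∀ S : Finset (Set.Ici p), z ∉ up p S := by
    intro S hS
    obtain ⟨h1, -⟩ := mem_up.1 hS
    exact hzp (le_antisymm (hz p) h1)
  have h1 : (univ.filter fun S : Finset L => IsSub S ∧ P S) =
      A.image (up p) ∪ A.image fun S => insert z (up p S) := by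
    ext S
    rw [mem_filter, mem_union, mem_image, mem_image]
    constructor
    · rintro ⟨-, hS, hPS⟩
      -- the part above `p`
      set S' : Finset (Set.Ici p) := univ.filter fun a => a.1 ∈ S with hS'
      have hup : ∀ a, a ∈ up p S' ↔ a ∈ S ∧ p ≤ a := by
        intro a
        rw [mem_up]
        constructor
        · rintro ⟨h1, h2⟩
          rw [hS', mem_filter] at h2
          exact ⟨h2.2, h1⟩
        · rintro ⟨h1, h2⟩
          exact ⟨h2, by rw [hS', mem_filter]; exact ⟨mem_univ _, h1⟩⟩
      have hsub : IsSub S' := by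
        rw [← up_sub]
        intro a ha b hb
        rw [hup] at ha hb
        rw [hup, hup]
        exact ⟨⟨(hS a ha.1 b hb.1).1, le_sup_of_le_left ha.2⟩,
          ⟨(hS a ha.1 b hb.1).2, le_inf ha.2 hb.2⟩⟩
      by_cases hzS : z ∈ S
      · right
        have e : insert z (up p S') = S := by
          ext a
          rw [mem_insert, hup]
          constructor
          · rintro (rfl | h1)
            · exact hzS
            · exact h1.1
          · intro h1
            by_cases haz : a = z
            · exact Or.inl haz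
            · exact Or.inr ⟨h1, hp a haz⟩
        refine ⟨S', ?_, e⟩
        rw [hA, mem_filter]
        refine ⟨mem_univ _, hsub, ?_⟩
        rw [← hP, e]
        exact hPS
      · left
        have e : up p S' = S := by
          ext a
          rw [hup]
          constructor
          · exact fun h1 => h1.1
          · intro h1
            refine ⟨h1, hp a ?_⟩
            rintro rfl
            exact hzS h1
        refine ⟨S', ?_, e⟩
        rw [hA, mem_filter]
        exact ⟨mem_univ _, hsub, by rw [e]; exact hPS⟩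
    · rintro (⟨S', hS', rfl⟩ | ⟨S', hS', rfl⟩)
      · rw [hA, mem_filter] at hS'
        exact ⟨mem_univ _, up_sub.2 hS'.2.1, hS'.2.2⟩
      · rw [hA, mem_filter] at hS'
        refine ⟨mem_univ _, ?_, (hP _).2 hS'.2.2⟩
        have h2 := up_sub.2 hS'.2.1
        intro a ha b hb
        rw [mem_insert] at ha hb
        rcases ha with rfl | ha <;> rcases hb with rfl | hb
        · simp
        · rw [sup_eq_right.2 (hz b), inf_eq_left.2 (hz b)]
          exact ⟨mem_insert_of_mem hb, mem_insert_self _ _⟩
        · rw [sup_eq_left.2 (hz a), inf_eq_right.2 (hz a)]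
          exact ⟨mem_insert_of_mem ha, mem_insert_self _ _⟩
        · exact ⟨mem_insert_of_mem (h2 a ha b hb).1, mem_insert_of_mem (h2 a ha b hb).2⟩
  rw [h1, card_union_of_disjoint, card_image_of_injective, card_image_of_injOn, two_mul]
  · intro S _ T _ hST
    apply up_inj
    have h2 : (insert z (up p S)).erase z = (insert z (up p T)).erase z :=
      congrArg (fun U => U.erase z) hST
    rwa [erase_insert (hzup S), erase_insert (hzup T)] at h2
  · intro S T hST
    exact up_inj hST
  · rw [disjoint_left]
    intro S hS hS'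
    rw [mem_image] at hS hS'
    obtain ⟨S1, -, rfl⟩ := hS
    obtain ⟨S2, -, h2⟩ := hS'
    apply hzup S1
    rw [← h2]
    exact mem_insert_self _ _

end one

open Classical in
/-- in every finite distributive lattice that is not a chain some element lies in less than half
of the sublattices -/
theorem exists_strict (n : ℕ) : ∀ (L : Type*) [DistribLattice L] [Fintype L] [DecidableEq L],
    Fintype.card L ≤ n → (¬ ∀ a b : L, a ≤ b ∨ b ≤ a) →
    ∃ x : L, Nat.card {S : Finset L // IsSub S ∧ x ∈ S} <
      Nat.card {S : Finset L // IsSub S ∧ x ∉ S} := by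
  induction n with
  | zero =>
    intro L _ _ _ hn hnc
    exfalso
    apply hnc
    intro a
    have : Fintype.card L = 0 := by omega
    exact (Fintype.card_eq_zero_iff.1 this).elim a
  | succ n ih =>
    intro L _ _ _ hn hnc
    push Not at hnc
    obtain ⟨a0, b0, hab, hba⟩ := hnc
    have hne : (univ : Finset L).Nonempty := ⟨a0, mem_univ _⟩
    set z : L := univ.inf' hne id with hz
    have hzle : ∀ a : L, z ≤ a := fun a => Finset.inf'_le id (mem_univ a)
    -- an atom
    have hne2 : (univ.filter fun a : L => a ≠ z).Nonempty := by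
      refine ⟨a0, ?_⟩
      rw [mem_filter]
      refine ⟨mem_univ _, ?_⟩
      rintro h1
      exact hab (h1 ▸ hzle b0)
    obtain ⟨p, hp, hpmin⟩ := (univ.filter fun a : L => a ≠ z).exists_minimal hne2
    rw [mem_filter] at hp
    have hatom : ∀ a : L, ¬ p ≤ a → a ⊓ p = z := by
      intro a ha
      by_contra hc
      have h1 := hpmin (y := a ⊓ p) (mem_filter.2 ⟨mem_univ _, hc⟩) inf_le_right
      exact ha (h1.trans inf_le_left)
    by_cases huniq : ∀ a : L, a ≠ z → p ≤ a
    · -- a single atom: restrict to the elements above it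
      have hcard : Fintype.card (Set.Ici p) ≤ n := by
        have h1 : Fintype.card (Set.Ici p) < Fintype.card L := by
          apply Fintype.card_subtype_lt (x := z)
          intro hc
          exact hp.2 (le_antisymm hc (hzle p))
        omega
      have ha0 : p ≤ a0 := huniq a0 (by rintro h1; exact hab (h1 ▸ hzle b0))
      have hb0 : p ≤ b0 := huniq b0 (by rintro h1; exact hba (h1 ▸ hzle a0))
      obtain ⟨x, hx⟩ := ih (Set.Ici p) hcard (fun hc => by
        rcases hc ⟨a0, ha0⟩ ⟨b0, hb0⟩ with h1 | h1
        · exact hab h1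
        · exact hba h1)
      have hxz : x.1 ≠ z := fun hc => hp.2 (le_antisymm (by
        have := x.2
        rw [Set.mem_Ici, hc] at this
        exact this) (hzle p))
      have hmem : ∀ S : Finset (Set.Ici p), x.1 ∈ up p S ↔ x ∈ S := by
        intro S
        rw [mem_up]
        exact ⟨fun ⟨_, h1⟩ => h1, fun h1 => ⟨x.2, h1⟩⟩
      refine ⟨x.1, ?_⟩
      have e1 := card_up hzle (Ne.symm hp.2) huniq (fun S => x.1 ∈ S) (fun S => by
        rw [mem_insert]; exact ⟨fun h1 => h1.resolve_left hxz, Or.inr⟩)
      have e2 := card_up hzle (Ne.symm hp.2) huniq (fun S => x.1 ∉ S) (fun S => by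
        rw [mem_insert, not_or]; exact ⟨fun h1 => h1.2, fun h1 => ⟨hxz, h1⟩⟩)
      rw [e1, e2]
      simp only [hmem]
      omega
    · -- at least two atoms
      push Not at huniq
      obtain ⟨y, hyz, hpy⟩ := huniq
      have hne3 : (univ.filter fun a : L => ¬ p ≤ a).Nonempty :=
        ⟨y, by rw [mem_filter]; exact ⟨mem_univ _, hpy⟩⟩
      set x : L := (univ.filter fun a : L => ¬ p ≤ a).sup' hne3 id with hx
      have hprime : ∀ a b : L, ¬ p ≤ a → ¬ p ≤ b → ¬ p ≤ a ⊔ b := by
        intro a b ha hb hc
        apply hp.2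
        calc p = (a ⊔ b) ⊓ p := (inf_eq_right.2 hc).symm
          _ = (a ⊓ p) ⊔ (b ⊓ p) := inf_sup_right _ _ _
          _ = z := by rw [hatom a ha, hatom b hb, sup_idem]
      have hxmem : x ∈ univ.filter fun a : L => ¬ p ≤ a := by
        apply Finset.sup'_mem (↑(univ.filter fun a : L => ¬ p ≤ a) : Set L)
        · intro a ha b hb
          rw [mem_coe, mem_filter] at ha hb ⊢
          exact ⟨mem_univ _, hprime a b ha.2 hb.2⟩
        · intro i hi; exact hi
      rw [mem_filter] at hxmem
      have hPX : PX z p x := by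
        refine ⟨hzle, hp.2, hatom, fun a => ⟨fun h1 h2 => hxmem.2 (h2.trans h1), fun h1 => ?_⟩⟩
        exact Finset.le_sup' id (by rw [mem_filter]; exact ⟨mem_univ _, h1⟩)
      have hfin : x ≠ z := ?_
      · have h1 := hPX.card_lt hfin
        rw [ncard_filter, ncard_filter] at h1
        exact ⟨x, h1⟩
      intro hc
      have h1 : y ≤ x := (hPX.px y).2 hpy
      rw [hc] at h1
      exact hyz (le_antisymm h1 (hzle y))

end Pool.Agent.U613.SL
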