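import Pool.Agent.U613.SL.Rel

/-!
# The relation is injective
-/

set_option autoImplicit false
set_option linter.unusedSectionVars false
set_option linter.unusedVariables false

namespace Pool.Agent.U613.SL

open Finset

variable {L : Type*} [DistribLattice L] [Fintype L] [DecidableEq L]
variable {z p x : L}

lemma img_VB {S : Finset L} {d : L} : img p (VB p S d) = img p S := by
  ext a
  constructor
  · intro h
    rw [mem_img] at h
    obtain ⟨b, hb, rfl⟩ := h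
    rw [mem_VB] at hb
    rcases hb with hb | ⟨hb, -, -⟩
    · rw [sup_eq_left.2 (le_of_mem_img hb)]; exact hb
    · exact mem_img.2 ⟨b, hb, rfl⟩
  · intro h
    exact mem_img_of_mem (mem_VB.2 (Or.inl h)) (le_of_mem_img h)

lemma img_VE {S : Finset L} {q : L} : img p (VE p q S) = img p S := by
  ext a
  constructor
  · intro h
    rw [mem_img] at h
    obtain ⟨b, hb, rfl⟩ := h
    rw [mem_VE] at hb
    rcases hb with ⟨hb, -⟩ | ⟨hb, -⟩
    · rw [sup_eq_left.2 (le_of_mem_img hb)]; exact hb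
    · exact mem_img.2 ⟨b, hb, rfl⟩
  · intro h
    rw [mem_img] at h
    obtain ⟨s, hs, rfl⟩ := h
    by_cases hq : q ≤ s ⊔ p
    · exact mem_img_of_mem (mem_VE.2 (Or.inl ⟨mem_img.2 ⟨s, hs, rfl⟩, hq⟩)) le_sup_right
    · exact mem_img.2 ⟨s, mem_VE.2 (Or.inr ⟨hs, hq⟩), rfl⟩

lemma img_of_type {S V : Finset L} (hT : TB p x S V ∨ TC p x S V ∨ TD p x S V ∨ TE p x S V) :
    img p V = img p S := by
  rcases hT with ⟨d, -, -, -, -, -, rfl⟩ | ⟨-, -, rfl⟩ | ⟨-, -, rfl⟩ | ⟨-, -, rfl⟩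
  · exact img_VB
  · exact img_img
  · exact img_img
  · exact img_VE

namespace PX

variable (h : PX z p x)
include h

lemma ext_of {S S' : Finset L} (hS : IsSub S) (hx : x ∈ S) (hS' : IsSub S') (hx' : x ∈ S')
    (hK : img p S = img p S') (hup : ∀ w, p ≤ w → (w ∈ S ↔ w ∈ S')) : S = S' := by
  ext s
  by_cases hs : p ≤ s
  · exact hup s hs
  · rw [h.low_iff hS hx hs, h.low_iff hS' hx' hs, hK]

/-- in types B, C, D the image is contained in `V`, in type E it is not -/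
lemma not_VE {S V : Finset L} (hS : IsSub S) (hx : x ∈ S) (hw : ∃ w ∈ S, ¬ x ≤ w)
    (hT : TE p x S V) : ¬ img p V ⊆ V := by
  obtain ⟨hno, hge, rfl⟩ := hT
  have hQ := h.exists_Q' hS hx hw
  set q := qof (x ⊔ p) (img p S) with hq
  obtain ⟨a, ha, hqa⟩ := hQ.2.2.1
  intro hc
  rw [img_VE] at hc
  have h1 := hc ha
  rw [mem_VE] at h1
  rcases h1 with ⟨-, h1⟩ | ⟨h1, -⟩
  · exact hqa h1
  · exact hqa (hQ.2.1.trans (hge a h1 (le_of_mem_img ha)))

lemma sub_of_B {S V : Finset L} (hT : TB p x S V) : img p V ⊆ V := by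
  obtain ⟨d, -, -, -, -, -, rfl⟩ := hT
  rw [img_VB]
  intro a ha
  exact mem_VB.2 (Or.inl ha)

lemma eq_of_CD {S V : Finset L} (hT : TC p x S V ∨ TD p x S V) : V = img p S := by
  rcases hT with ⟨-, -, h⟩ | ⟨-, -, h⟩ <;> exact h

lemma sub_of_CD {S V : Finset L} (hT : TC p x S V ∨ TD p x S V) : img p V ⊆ V := by
  rw [h.eq_of_CD hT, img_img]

lemma low_B {S V : Finset L} (hS : IsSub S) (hx : x ∈ S) {d : L} (hd : d ∈ S) (hpd : p ≤ d)
    (hdX : d ≤ x ⊔ p) (hV : V = VB p S d) : d ⊓ x ∈ V ∧ ¬ p ≤ d ⊓ x ∧ (d ⊓ x) ⊔ p = d := by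
  have h1 : (d ⊓ x) ⊔ p = d := h.tau hpd hdX
  have h2 : ¬ p ≤ d ⊓ x := fun hc => h.npx (hc.trans inf_le_right)
  refine ⟨?_, h2, h1⟩
  rw [hV, mem_VB]
  exact Or.inr ⟨(hS d hd x hx).2, h2, h1.le⟩

lemma not_B_CD {S S' V : Finset L} (hS : IsSub S) (hx : x ∈ S) (hT : TB p x S V)
    (hT' : TC p x S' V ∨ TD p x S' V) : False := by
  obtain ⟨d, hd, hpd, hdX, -, -, hV⟩ := hT
  obtain ⟨h1, h2, -⟩ := h.low_B hS hx hd hpd hdX hV
  rw [h.eq_of_CD hT'] at h1
  exact h2 (le_of_mem_img h1)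

lemma not_C_D {S S' V : Finset L} (hS : IsSub S) (hT : TC p x S V)
    (hT' : TD p x S' V) (hK : img p S = img p S') : False := by
  obtain ⟨-, hge, -⟩ := hT
  obtain ⟨⟨t, ht, hpt, htX⟩, hno, -⟩ := hT'
  have h1 : t ∈ img p S := by rw [hK]; exact mem_img_of_mem ht hpt
  rw [mem_img] at h1
  obtain ⟨s, hs, he⟩ := h1
  by_cases hps : p ≤ s
  · rw [sup_eq_left.2 hps] at he
    rw [← he] at htX
    exact htX (hge s hs hps)
  · apply hno t ht hpt
    rw [← he]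
    exact sup_le_sup_right ((h.px s).2 hps) p

/-- the elements of the outputs of the types B to E are not all above `x ⊔ p` -/
lemma exists_low {S V : Finset L} (hS : IsSub S) (hx : x ∈ S) (hw : ∃ w ∈ S, ¬ x ≤ w)
    (hT : TB p x S V ∨ TC p x S V ∨ TD p x S V ∨ TE p x S V) : ∃ v ∈ V, ¬ x ⊔ p ≤ v := by
  obtain ⟨w, hw1, hwx⟩ := hw
  obtain ⟨⟨h1, h2, h3⟩, h4, h5⟩ := h.low_witness hS hx hw1 hwx
  rcases hT with hT | hT | hT | hT
  · refine ⟨_, ?_, h5⟩
    obtain ⟨d, -, -, -, -, -, rfl⟩ := hT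
    exact mem_VB.2 (Or.inl h4)
  · refine ⟨_, ?_, h5⟩
    rw [h.eq_of_CD (Or.inl hT)]; exact h4
  · refine ⟨_, ?_, h5⟩
    rw [h.eq_of_CD (Or.inr hT)]; exact h4
  · obtain ⟨-, -, rfl⟩ := hT
    by_cases hq : qof (x ⊔ p) (img p S) ≤ (w ⊓ x) ⊔ p
    · exact ⟨_, mem_VE.2 (Or.inl ⟨h4, hq⟩), h5⟩
    · exact ⟨_, mem_VE.2 (Or.inr ⟨h1, hq⟩), fun hc => h3 (le_sup_left.trans hc)⟩

lemma above_of_A {S V : Finset L} (hup : ∀ s ∈ S, x ≤ s) (hV : V = S.erase x) :
    ∀ v ∈ V, x ⊔ p ≤ v := by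
  intro v hv
  rw [hV, mem_erase] at hv
  apply sup_le (hup v hv.2)
  by_contra hpv
  exact hv.1 (le_antisymm ((h.px v).2 hpv) (hup v hv.2))

theorem R_inj {S S' V : Finset L} (hS : IsSub S) (hx : x ∈ S) (hS' : IsSub S') (hx' : x ∈ S')
    (hR : R p x S V) (hR' : R p x S' V) : S = S' := by
  rcases hR with ⟨hup, hV⟩ | ⟨hw, hT⟩ <;> rcases hR' with ⟨hup', hV'⟩ | ⟨hw', hT'⟩
  · rw [← insert_erase hx, ← insert_erase hx', ← hV, ← hV']
  · exfalso
    obtain ⟨v, hv, hvX⟩ := h.exists_low hS' hx' hw' hT'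
    exact hvX (h.above_of_A hup hV v hv)
  · exfalso
    obtain ⟨v, hv, hvX⟩ := h.exists_low hS hx hw hT
    exact hvX (h.above_of_A hup' hV' v hv)
  have hK : img p S = img p S' := by rw [← img_of_type hT, ← img_of_type hT']
  apply h.ext_of hS hx hS' hx' hK
  -- D and E have the same upper parts
  have hDE : (∀ t ∈ S, p ≤ t → ¬ t ≤ x ⊔ p) → (∀ t ∈ S', p ≤ t → ¬ t ≤ x ⊔ p) →
      ∀ w, p ≤ w → (w ∈ S ↔ w ∈ S') := by
    intro h1 h2 w hpw
    rw [h.up_iff' hS h1 hpw, h.up_iff' hS' h2 hpw, hK]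
  rcases hT with hB | hC | hD | hE <;> rcases hT' with hB' | hC' | hD' | hE'
  · -- B, B
    obtain ⟨d, hd, hpd, hdX, -, hmin, hV⟩ := hB
    obtain ⟨d', hd', hpd', hdX', -, hmin', hV'⟩ := hB'
    obtain ⟨a1, a2, a3⟩ := h.low_B hS hx hd hpd hdX hV
    obtain ⟨b1, b2, b3⟩ := h.low_B hS' hx' hd' hpd' hdX' hV'
    have e1 : d ≤ d' := by
      rw [hV', mem_VB] at a1
      rcases a1 with a1 | ⟨-, -, a1⟩
      · exact absurd (le_of_mem_img a1) a2
      · rw [a3] at a1; exact a1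
    have e2 : d' ≤ d := by
      rw [hV, mem_VB] at b1
      rcases b1 with b1 | ⟨-, -, b1⟩
      · exact absurd (le_of_mem_img b1) b2
      · rw [b3] at b1; exact b1
    have e : d = d' := le_antisymm e1 e2
    intro w hpw
    rw [h.up_iff hS hd hpd hmin hpw, h.up_iff hS' hd' hpd' hmin' hpw, hK, e]
  · exact (h.not_B_CD hS hx hB (Or.inl hC')).elim
  · exact (h.not_B_CD hS hx hB (Or.inr hD')).elim
  · exact (h.not_VE hS' hx' hw' hE' (h.sub_of_B hB)).elim
  · exact (h.not_B_CD hS' hx' hB' (Or.inl hC)).elim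
  · obtain ⟨c1, c2, -⟩ := hC
    obtain ⟨c1', c2', -⟩ := hC'
    intro w hpw
    rw [h.up_iff hS c1 le_sup_right c2 hpw, h.up_iff hS' c1' le_sup_right c2' hpw, hK]
  · exact (h.not_C_D hS hC hD' hK).elim
  · exact (h.not_VE hS' hx' hw' hE' (h.sub_of_CD (Or.inl hC))).elim
  · exact (h.not_B_CD hS' hx' hB' (Or.inr hD)).elim
  · exact (h.not_C_D hS' hC' hD hK.symm).elim
  · exact hDE hD.2.1 hD'.2.1
  · exact (h.not_VE hS' hx' hw' hE' (h.sub_of_CD (Or.inr hD))).elim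
  · exact (h.not_VE hS hx hw hE (h.sub_of_B hB')).elim
  · exact (h.not_VE hS hx hw hE (h.sub_of_CD (Or.inl hC'))).elim
  · exact (h.not_VE hS hx hw hE (h.sub_of_CD (Or.inr hD'))).elim
  · exact hDE hE.1 hE'.1

open Classical in
/-- at most as many sublattices contain `x` as do not -/
theorem card_le : (univ.filter fun S : Finset L => IsSub S ∧ x ∈ S).card ≤
    (univ.filter fun S : Finset L => IsSub S ∧ x ∉ S).card := by
  refine Finset.card_le_card_of_forall_subsingleton (R p x) ?_ ?_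
  · intro S hS
    rw [mem_filter] at hS
    obtain ⟨V, h1, h2, h3⟩ := h.exists_R hS.2.1 hS.2.2
    exact ⟨V, by rw [mem_filter]; exact ⟨mem_univ _, h1, h2⟩, h3⟩
  · intro V _ S hS S' hS'
    have h1 := hS.1
    have h2 := hS'.1
    rw [mem_filter] at h1 h2
    exact h.R_inj h1.2.1 h1.2.2 h2.2.1 h2.2.2 hS.2 hS'.2

open Classical in
/-- strictly fewer, unless `x` is the least element -/
theorem card_lt (hxz : x ≠ z) : (univ.filter fun S : Finset L => IsSub S ∧ x ∈ S).card <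
    (univ.filter fun S : Finset L => IsSub S ∧ x ∉ S).card := by
  have hxp : ¬ x ≤ p := by
    intro hc
    have h1 : x ⊓ p = z := h.atom x h.npx
    rw [inf_eq_left.2 hc] at h1
    exact hxz h1
  have hmem : ({p} : Finset L) ∈ univ.filter fun S : Finset L => IsSub S ∧ x ∉ S := by
    rw [mem_filter]
    refine ⟨mem_univ _, ?_, ?_⟩
    · intro a ha b hb
      rw [mem_singleton] at ha hb
      subst ha; subst hb
      simp
    · rw [mem_singleton]
      intro hc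
      exact hxp hc.le
  refine lt_of_le_of_lt ?_ (card_lt_card (erase_ssubset hmem))
  refine Finset.card_le_card_of_forall_subsingleton (R p x) ?_ ?_
  · intro S hS
    rw [mem_filter] at hS
    obtain ⟨V, h1, h2, h3⟩ := h.exists_R hS.2.1 hS.2.2
    refine ⟨V, ?_, h3⟩
    rw [mem_erase, mem_filter]
    refine ⟨?_, mem_univ _, h1, h2⟩
    intro hVp
    rcases h3 with ⟨hup, hV⟩ | ⟨hw, hT⟩
    · have h4 := h.above_of_A hup hV p (by rw [hVp]; exact mem_singleton_self p)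
      exact hxp (le_sup_left.trans h4)
    · have h4 := img_of_type hT
      have h5 : x ⊔ p ∈ img p V := by
        rw [h4]
        exact mem_img.2 ⟨x, hS.2.2, rfl⟩
      rw [hVp, mem_img] at h5
      obtain ⟨s, hs, hs2⟩ := h5
      rw [mem_singleton] at hs
      rw [hs, sup_idem] at hs2
      exact hxp (hs2 ▸ le_sup_left)
  · intro V _ S hS S' hS'
    have h1 := hS.1
    have h2 := hS'.1
    rw [mem_filter] at h1 h2
    exact h.R_inj h1.2.1 h1.2.2 h2.2.1 h2.2.2 hS.2 hS'.2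

end PX

end Pool.Agent.U613.SL
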